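import Pool.Agent.Helper62.NT.Goals

/-!
# PROJECT NT (MP_8ff381_an), packet NT-CNT: countably many nodes
-/

set_option autoImplicit false

noncomputable section

namespace Pool.Agent.Helper37.NT.CNT

open Pool.Agent.Helper62.NT

theorem t (hRTB : S_RTB) : S_CNT := by
  intro H _ D A hA
  obtain ⟨S, hS, hAS⟩ := hA
  obtain ⟨r1, r2, -⟩ := hRTB H D.R
  have hcount : Set.Countable ((fun c : ℕ × H × ℕ => (c.1, D.R.res c.2.1 (c.2.2 * D.s c.1))) ''
      (Set.univ ×ˢ (S ×ˢ (Set.univ : Set ℕ)))) :=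
    ((Set.countable_univ).prod (hS.prod Set.countable_univ)).image _
  refine hcount.mono ?_
  rintro ⟨n, v⟩ ⟨⟨k, hk⟩, x, hxA, ⟨hle, hres⟩, hne⟩
  change D.R.dep v = k * D.s n at hk
  change D.R.dep v ≤ D.R.dep x at hle
  change D.R.res x (D.R.dep v) = v at hres
  have hlt : D.R.dep v < D.R.dep x := by
    rcases lt_or_eq_of_le hle with h | h
    · exact h
    · exfalso
      apply hne
      show v = x
      rw [← hres, h, D.R.res_dep]
  obtain ⟨y, hyS, hxy⟩ := Metric.mem_closure_iff.1 (hAS hxA) (D.R.dep x - D.R.dep v) (sub_pos.2 hlt)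
  have hd := D.R.dist_eq x y
  have h1 := r2 x y
  have h2 : D.R.dep v < D.R.gp x y := by linarith
  have h3 : D.R.res x (D.R.dep v) = D.R.res y (D.R.dep v) :=
    (D.R.res_eq x y (D.R.dep v) (r1 v).1 hlt.le (h2.le.trans h1)).2 h2.le
  refine ⟨(n, y, k), ⟨Set.mem_univ _, hyS, Set.mem_univ _⟩, ?_⟩
  show (n, D.R.res y (k * D.s n)) = (n, v)
  have h4 : D.R.dep v = k * D.s n := hk
  rw [← h4, ← h3, hres]

end Pool.Agent.Helper37.NT.CNT
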